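import Pool.Agent.Helper14.PW.CoreE

/-!
Project PW (MP_b8862a_ag): the main theorem for Hodge structures, from the properties of the exceptional set.
-/

open Module Matrix

namespace MH

/-- **The main theorem.** -/
theorem ExE.main {EE : Set ℕ} (hE : ExE EE) {n : Type} [Fintype n] [DecidableEq n] {w : ℤ}
    {Q : Matrix n n ℚ} {S : Finset ℤ} {P : ℤ → Matrix n n ℂ} (H : IsHW w Q S P) (hSD : SelfDual Q P)
    (hdom : ∀ e, IsBlk P e → 2 ≤ e.rank → e.rank ∉ EE ∧ ∃ σ : ℂ ≃+* ℂ, NI.Indec w (fun p => (e.map σ * P p).rank) ∧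
      (∃ p, 2 ≤ (e.map σ * P p).rank) ∧ ((∀ d : ℕ, (∀ p, d ∣ (e.map σ * P p).rank) → d = 1) ∨
        ∀ A : Matrix n n ℚ, (∀ p, toC A * P p = P p * toC A) → ∃ c : ℚ, A = c • (1 : Matrix n n ℚ))) :
    (∀ g : GL n ℂ, g ∈ MT S P ↔ InGw w Q P (g : Matrix n n ℂ)) ∧
    ∀ (ℓ : ℕ) [Fact ℓ.Prime] (ι : ℚ_[ℓ] →+* ℂ) (Γ : Subgroup (GL n ℚ_[ℓ])),
      IsGalSD w Q S P (Γ.map (Matrix.GeneralLinearGroup.map ι)) →
      (∃ D : Subgroup (GL n ℚ), IsMonB Q S P D ∧ D.map (Matrix.GeneralLinearGroup.map (algebraMap ℚ ℚ_[ℓ])) ≤ Γ) ∨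
      ((∀ e, IsBlk P e → 2 ≤ e.rank → ∃ σ : ℂ ≃+* ℂ, NI.Indec w (fun p => (e.map σ * P p).rank) ∧
          (∃ p, 2 ≤ (e.map σ * P p).rank) ∧ ∀ d : ℕ, (∀ p, d ∣ (e.map σ * P p).rank) → d = 1) ∧ SemiS Γ ∧
        ∀ t, IsTateTensor (Γ.map (Matrix.GeneralLinearGroup.map ι)) 1 1 t → MTfix S P 1 1 t) →
      ∀ (a b : ℕ) (t : (Fin a ⊕ Fin b → n) → ℂ),
        IsTateTensor (Γ.map (Matrix.GeneralLinearGroup.map ι)) a b t ↔ MTfix S P a b t := by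
  have h0 : ∀ e, IsBlk P e → e.rank ≠ 1 → 2 ≤ e.rank := by
    intro e he hr
    have h1 : e.rank ≠ 0 := by
      intro h
      obtain ⟨r, W, V, hVW, hWV⟩ := exists_coord48 he.idem
      have h2 : e.rank = r := _root_.MH.blk_rank he hVW hWV
      apply he.ne
      rw [← hWV]
      have h3 : r = 0 := by omega
      subst h3
      ext i j
      simp [Matrix.mul_apply]
    omega
  have hty : ∀ f, IsBlk P f → 2 ≤ f.rank → TyBN Q S P f := fun f hf hf2 => H.tyBN_ex hE hSD hdom hf hf2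
  refine ⟨H.MT_iff_self14 hty hSD, fun ℓ _ ι Γ G hAB => (pp_main ι H hSD hty).2 Γ G ?_⟩
  rcases hAB with ⟨D, hD, hle⟩ | ⟨hg, hss, h11⟩
  · refine Or.inl ⟨D, hD, ?_⟩
    refine le_trans (le_of_eq ?_) (Subgroup.map_mono hle)
    rw [mapC, Subgroup.map_map]
    congr 1
    ext g i j
    simp [Matrix.GeneralLinearGroup.map_apply]
  · refine Or.inr ⟨fun e he hr => ?_, hss, h11⟩
    obtain ⟨σ, hI, h2, hd⟩ := hg e he (h0 e he hr)
    exact ⟨σ, hE.crW (hdom e he (h0 e he hr)).1 hI h2, hd⟩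

end MH
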