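import Pool.Agent.Helper81.PW.Defs

/-!
Project PW (MP_b8862a_ag): sets of density zero; the perfect powers.
-/

open Finset

namespace PW

theorem cn_le14 {A : Set ℕ} {X : ℕ} {T : Finset ℕ} (h : ∀ n, 1 ≤ n → n ≤ X → n ∈ A → n ∈ T) : cn A X ≤ T.card := by
  classical
  unfold cn
  refine card_le_card fun x hx => ?_
  have h1 := Finset.mem_filter.1 hx
  have h2 := Finset.mem_Icc.1 h1.1
  exact h x h2.1 h2.2 h1.2

theorem cn_union (A B : Set ℕ) (X : ℕ) : cn (A ∪ B) X ≤ cn A X + cn B X := by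
  classical
  refine (cn_le14 (T := ((Icc 1 X).filter (· ∈ A)) ∪ ((Icc 1 X).filter (· ∈ B))) fun n h1 h2 h3 => ?_).trans
    ((card_union_le _ _).trans (le_of_eq ?_))
  · rw [mem_union, mem_filter, mem_filter, mem_Icc]
    rcases h3 with h | h
    · exact Or.inl ⟨⟨h1, h2⟩, h⟩
    · exact Or.inr ⟨⟨h1, h2⟩, h⟩
  · unfold cn
    congr

theorem Zero.union14 {A B : Set ℕ} (hA : Zero A) (hB : Zero B) : Zero (A ∪ B) := by
  intro K
  obtain ⟨X1, h1⟩ := hA (2 * K)
  obtain ⟨X2, h2⟩ := hB (2 * K)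
  refine ⟨max X1 X2, fun X hX => ?_⟩
  have h3 := h1 X (le_trans (le_max_left _ _) hX)
  have h4 := h2 X (le_trans (le_max_right _ _) hX)
  have h5 := Nat.mul_le_mul_left K (cn_union A B X)
  rw [mul_add] at h5
  have h6 : 2 * K * cn A X = 2 * (K * cn A X) := by ring
  have h7 : 2 * K * cn B X = 2 * (K * cn B X) := by ring
  omega

theorem Zero.bdd14 (m : ℕ) : Zero {n | n < m} := by
  intro K
  refine ⟨K * m, fun X hX => le_trans (Nat.mul_le_mul_left K ?_) hX⟩
  exact (cn_le14 (T := range m) fun n _ _ h3 => mem_range.2 h3).trans (card_range m).le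

/-- the perfect powers -/
theorem Zero.pow14 : Zero {n | ∃ d k : ℕ, 2 ≤ k ∧ n = d ^ k} := by
  classical
  intro K
  -- `K * L ≤ 2 ^ (L / 2)` for large `L`
  obtain ⟨L0, hL0⟩ : ∃ L0 : ℕ, ∀ L, L0 ≤ L → K * (L + 1) ≤ 2 ^ (L / 2) := by
    have h1 : Filter.Tendsto (fun M : ℕ => ((M : ℝ) ^ 1) / (2 : ℝ) ^ M) Filter.atTop (nhds 0) :=
      tendsto_pow_const_div_const_pow_of_one_lt 1 (by norm_num)
    rw [Metric.tendsto_atTop] at h1
    obtain ⟨M0, hM0⟩ := h1 (1 / (4 * K + 1)) (by positivity)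
    refine ⟨2 * (M0 + 1), fun L hL => ?_⟩
    obtain ⟨M, hM⟩ : ∃ M, M = L / 2 := ⟨_, rfl⟩
    have h2 : M0 ≤ M := by omega
    have h3 := hM0 M h2
    rw [Real.dist_eq, sub_zero, pow_one, abs_of_nonneg (by positivity), div_lt_div_iff₀ (by positivity)
      (by positivity), one_mul] at h3
    have h4 : M * (4 * K + 1) < 2 ^ M := by exact_mod_cast h3
    rw [← hM]
    have h5 : L + 1 ≤ 4 * M := by omega
    calc K * (L + 1) ≤ K * (4 * M) := Nat.mul_le_mul_left K h5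
      _ ≤ M * (4 * K + 1) := by nlinarith
      _ ≤ 2 ^ M := h4.le
  refine ⟨2 ^ L0, fun X hX => ?_⟩
  have hX0 : X ≠ 0 := by
    have : 0 < 2 ^ L0 := by positivity
    omega
  obtain ⟨L, hL⟩ : ∃ L, L = Nat.log 2 X := ⟨_, rfl⟩
  have hLL : L0 ≤ L := by
    rw [hL]
    exact (Nat.le_log_iff_pow_le (by norm_num) hX0).2 hX
  have h1 : cn {n | ∃ d k : ℕ, 2 ≤ k ∧ n = d ^ k} X ≤ (Nat.sqrt X) * (L + 1) := by
    have h2 : ∀ n, 1 ≤ n → n ≤ X → n ∈ {n | ∃ d k : ℕ, 2 ≤ k ∧ n = d ^ k} →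
        n ∈ (Icc 1 (Nat.sqrt X) ×ˢ range (L + 1)).image fun p => p.1 ^ p.2 := by
      rintro n h3 h4 ⟨d, k, hk, rfl⟩
      rw [mem_image]
      have hd : 1 ≤ d := by
        by_contra h5
        have h6 : d = 0 := by omega
        rw [h6, zero_pow (by omega)] at h3
        omega
      by_cases hd1 : d = 1
      · refine ⟨(1, 0), ?_, ?_⟩
        · rw [mem_product, mem_Icc, mem_range]
          refine ⟨⟨le_refl _, ?_⟩, by omega⟩
          exact Nat.le_sqrt.2 (by omega)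
        · rw [hd1, one_pow, one_pow]
      · refine ⟨(d, k), ?_, rfl⟩
        rw [mem_product, mem_Icc, mem_range]
        refine ⟨⟨hd, ?_⟩, ?_⟩
        · rw [Nat.le_sqrt, ← sq]
          exact le_trans (Nat.pow_le_pow_right hd hk) h4
        · have h5 : k ≤ L := by
            rw [hL]
            refine (Nat.le_log_iff_pow_le (by norm_num) hX0).2 ?_
            exact le_trans (Nat.pow_le_pow_left (by omega) k) h4
          omega
    refine (cn_le14 h2).trans (card_image_le.trans ?_)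
    rw [card_product, Nat.card_Icc, card_range, Nat.add_sub_cancel]
  have h2 : 2 ^ (L / 2) ≤ Nat.sqrt X := by
    rw [Nat.le_sqrt, ← sq, ← pow_mul]
    have h3 : 2 ^ L ≤ X := by
      rw [hL]
      exact Nat.pow_log_le_self 2 hX0
    exact le_trans (Nat.pow_le_pow_right (by norm_num) (by omega)) h3
  calc K * cn {n | ∃ d k : ℕ, 2 ≤ k ∧ n = d ^ k} X ≤ K * (Nat.sqrt X * (L + 1)) := Nat.mul_le_mul_left K h1
    _ = Nat.sqrt X * (K * (L + 1)) := by ring
    _ ≤ Nat.sqrt X * 2 ^ (L / 2) := Nat.mul_le_mul_left _ (hL0 L hLL)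
    _ ≤ Nat.sqrt X * Nat.sqrt X := Nat.mul_le_mul_left _ h2
    _ ≤ X := Nat.sqrt_le X

/-- density zero, in terms of limits -/
theorem Zero.tendsto14 {S : Set ℕ} (h : Zero S) :
    Filter.Tendsto (fun X : ℕ => (Nat.card {n : Fin X // (n : ℕ) ∈ S} : ℝ) / X) Filter.atTop (nhds 0) := by
  classical
  rw [Metric.tendsto_atTop]
  intro ε hε
  obtain ⟨K, hK⟩ := exists_nat_gt (2 / ε)
  have hK0 : (0 : ℝ) < K := lt_of_le_of_lt (by positivity) hK
  obtain ⟨X0, hX0⟩ := h K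
  refine ⟨max X0 (K + 1), fun X hX => ?_⟩
  have h1 := hX0 X (le_trans (le_max_left _ _) hX)
  have hXK : K + 1 ≤ X := le_trans (le_max_right _ _) hX
  have hX1 : (0 : ℝ) < X := by
    have : 0 < X := by omega
    exact_mod_cast this
  have h2 : Nat.card {n : Fin X // (n : ℕ) ∈ S} ≤ cn S X + 1 := by
    rw [Nat.card_eq_fintype_card, Fintype.card_subtype]
    have h3 : ((univ : Finset (Fin X)).filter fun n : Fin X => (n : ℕ) ∈ S).card ≤
        (insert 0 ((Icc 1 X).filter (· ∈ S))).card := by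
      refine card_le_card_of_injOn (fun n : Fin X => (n : ℕ)) ?_ (fun a _ b _ hab => Fin.ext hab)
      intro n hn
      have hn := (mem_filter.1 hn).2
      rw [mem_coe, mem_insert, mem_filter, mem_Icc]
      by_cases h4 : (n : ℕ) = 0
      · exact Or.inl h4
      · exact Or.inr ⟨⟨Nat.one_le_iff_ne_zero.2 h4, n.2.le⟩, hn⟩
    refine h3.trans ((card_insert_le _ _).trans (le_of_eq ?_))
    unfold cn
    congr
  rw [Real.dist_eq, sub_zero, abs_of_nonneg (by positivity), div_lt_iff₀ hX1]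
  have h3 : (Nat.card {n : Fin X // (n : ℕ) ∈ S} : ℝ) ≤ cn S X + 1 := by exact_mod_cast h2
  have h4 : (K : ℝ) * cn S X ≤ X := by exact_mod_cast h1
  have h5 : (K : ℝ) + 1 ≤ X := by exact_mod_cast hXK
  have h6 : 2 < ε * K := by
    rw [div_lt_iff₀ hε] at hK
    linarith
  have h7 : (K : ℝ) * (cn S X + 1) < 2 * X := by nlinarith
  have h8 : (K : ℝ) * (cn S X + 1) < (ε * K) * X := by nlinarith
  have h9 : (cn S X : ℝ) + 1 < ε * X := by
    have h10 : (K : ℝ) * (cn S X + 1) < K * (ε * X) := by linarith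
    exact lt_of_mul_lt_mul_left h10 hK0.le
  linarith

end PW
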