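import Pool.Agent.Helper14.TF.Num

/-!
Project PW (MP_b8862a_ag), Hodge side: the blocks of a Hodge structure if the core theorem holds for their dimensions.
-/

set_option linter.unusedSectionVars false

open Matrix Module GH

attribute [local instance 100] LieRing.ofAssociativeRing

namespace MH

/-- For every dimension outside `EE`: a simple irreducible Lie algebra of skew endomorphisms contains all skew
endomorphisms, or the eigenspaces of its non-zero diagonalisable elements are lines. -/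
def CoreE (EE : Set ℕ) : Prop :=
  ∀ (n : Type) [Fintype n], Fintype.card n ∉ EE → ∀ ω : LinearMap.BilinForm ℂ (n → ℂ), ω.IsSymm ∨ ω.IsAlt →
    ω.Nondegenerate → ∀ L : LieSubalgebra ℂ (Module.End ℂ (n → ℂ)), LieAlgebra.IsSimple ℂ L →
    (∀ W : Submodule ℂ (n → ℂ), (∀ x ∈ L, ∀ u ∈ W, x u ∈ W) → W = ⊥ ∨ W = ⊤) →
    (∀ x ∈ L, ∀ u v, ω (x u) v = -ω u (x v)) →
    (∀ x : Module.End ℂ (n → ℂ), (∀ u v, ω (x u) v = -ω u (x v)) → x ∈ L) ∨
      ∀ h ∈ L, h ≠ 0 → (⨆ c : ℂ, Module.End.eigenspace h c) = ⊤ →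
        ∀ c : ℂ, finrank ℂ (Module.End.eigenspace h c) ≤ 1

theorem CoreE.coreW {EE : Set ℕ} (core : CoreE EE) {n : Type} [Fintype n] [DecidableEq n]
    (hn : Fintype.card n ∉ EE) {w : ℤ} {r : ℤ → ℕ} (h2 : 2 ≤ Fintype.card n) (hM : ∃ q, 2 ≤ r q)
    (h0 : ∀ q, 2 * q = w → r q ≠ Fintype.card n) : CoreW n w r := by
  intro Q' Qi hQ hQ1 hQ2 L hbr hirr hsk hs h E Λ hh hE hint hr X hX
  have hsa : (Matrix.toBilin' Q').IsSymm ∨ (Matrix.toBilin' Q').IsAlt := by
    rcases hQ with hQ | hQ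
    · exact Or.inl (form_symm98 hQ)
    · right
      intro u
      have h3 := form_alt98 hQ u u
      have h4 : (2 : ℂ) * Matrix.toBilin' Q' u u = 0 := by linear_combination h3
      exact (mul_eq_zero.1 h4).resolve_left two_ne_zero
  rcases core n hn (Matrix.toBilin' Q') hsa (form_nondeg98 hQ1) (lieOf L hbr) (lieOf_simple hirr h2 hs)
    (lieOf_irr hirr) (lieOf_sk hsk) with h3 | h3
  · have h4 : Matrix.toLin' X ∈ lieOf L hbr := by
      apply h3
      intro u v
      rw [Matrix.toLin'_apply, Matrix.toLin'_apply]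
      exact skew_iff98.1 hX u v
    rw [mem_lieOf, LinearMap.toMatrix'_toLin'] at h4
    exact h4
  · exfalso
    obtain ⟨q, hq⟩ := hM
    have hne : Matrix.toLin' h ≠ 0 := by
      intro h5
      have h7 := hE.finrank_eig98 0
      rw [h5] at h7
      have h8 : Module.End.eigenspace (0 : Module.End ℂ (n → ℂ)) ((0 : ℝ) : ℂ) = ⊤ := by
        rw [eq_top_iff]
        intro v _
        rw [Module.End.mem_eigenspace_iff]
        simp
      rw [h8, finrank_top, Module.finrank_fintype_fun_eq_card] at h7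
      have h9 : E 0 ≠ 0 := by
        intro h10
        rw [h10, Matrix.rank_zero] at h7
        omega
      obtain ⟨m, hm⟩ := hint 0 h9
      have h11 : 2 * m = w := by
        have : (2 * m - w : ℤ) = 0 := by exact_mod_cast hm.symm
        omega
      apply h0 m h11
      rw [← hr m, ← hm, h7]
    have h5 := h3 _ (toLin_mem_lieOf hh) hne hE.iSup_eig98 (((2 * q - w : ℤ) : ℝ) : ℂ)
    rw [hE.finrank_eig98, hr] at h5
    omega

/-- a polarised Hodge structure of rank at least two with only scalar endomorphisms is not of type `(m, m)` -/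
theorem rank_neE {n : Type*} [Fintype n] [DecidableEq n] {w : ℤ} {Q : Matrix n n ℚ} {S : Finset ℤ}
    {P : ℤ → Matrix n n ℂ} (H : IsHW w Q S P)
    (hEnd : ∀ A : Matrix n n ℚ, (∀ p, toC A * P p = P p * toC A) → ∃ c : ℚ, A = c • (1 : Matrix n n ℚ))
    (h2 : 2 ≤ Fintype.card n) (q : ℤ) : (P q).rank ≠ Fintype.card n := by
  intro hr
  have h1 : P q = 1 := by
    have hPP : P q * P q = P q := by rw [H.mul, if_pos rfl]
    have h3 : (1 - P q) * (1 - P q) = 1 - P q := by
      rw [sub_mul, mul_sub, mul_sub, hPP, one_mul, mul_one, one_mul, sub_self, sub_zero]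
    have h4 : (1 - P q).trace = 0 := by
      rw [Matrix.trace_sub, Matrix.trace_one, trace_eq_rank hPP, hr, sub_self]
    rw [trace_eq_rank h3] at h4
    have h5 : (1 - P q).rank = 0 := by exact_mod_cast h4
    rw [Matrix.rank, Submodule.finrank_eq_zero, LinearMap.range_eq_bot] at h5
    have h6 : 1 - P q = 0 := (LinearEquiv.map_eq_zero_iff Matrix.toLin').1 h5
    exact (sub_eq_zero.1 h6).symm
  have hall : ∀ A : Matrix n n ℚ, ∃ c : ℚ, A = c • (1 : Matrix n n ℚ) := by
    intro A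
    refine hEnd A fun p => ?_
    by_cases hp : p = q
    · rw [hp, h1, mul_one, one_mul]
    · have h3 : P p = 0 := by
        have h4 := H.mul p q
        rw [if_neg hp, h1, mul_one] at h4
        exact h4
      rw [h3, mul_zero, zero_mul]
  obtain ⟨i, j, hij⟩ : ∃ i j : n, i ≠ j := by
    have h3 : 1 < Fintype.card n := h2
    rw [Fintype.one_lt_card_iff] at h3
    exact h3
  obtain ⟨c, hc⟩ := hall (Matrix.single i i 1)
  have e1 : (1 : ℚ) = c := by
    have h3 := congrFun (congrFun hc i) i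
    simpa [Matrix.single] using h3
  have e2 : (0 : ℚ) = c := by
    have h3 := congrFun (congrFun hc j) j
    simpa [Matrix.single, hij] using h3
  rw [← e1] at e2
  exact one_ne_zero e2.symm

/-- the exceptional set -/
structure ExE (EE : Set ℕ) : Prop where
  core : CoreE EE
  small : ∀ n, n < 9 → n ∈ EE
  pow : ∀ d k : ℕ, 2 ≤ k → d ^ k ∈ EE

variable {EE : Set ℕ}

theorem ExE.crW (hE : ExE EE) {w : ℤ} {r : ℕ} {h : ℤ → ℕ} (hr : r ∉ EE) (hI : NI.Indec w h) (h2 : ∃ p, 2 ≤ h p) :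
    CrW w r h := by
  have h9 : 9 ≤ r := by
    by_contra h3
    exact hr (hE.small r (by omega))
  refine ⟨hI, h9, fun h0 => ?_⟩
  exact hE.core.coreW (by rw [Fintype.card_fin]; exact hr) (by rw [Fintype.card_fin]; omega) h2
    (fun p _ => by rw [Fintype.card_fin]; exact h0 p)

/-- **the blocks are of full type** -/
theorem IsHW.tyBN_ex {n : Type} [Fintype n] [DecidableEq n] {w : ℤ} {Q : Matrix n n ℚ} {S : Finset ℤ}
    {P : ℤ → Matrix n n ℂ} (H : IsHW w Q S P) (hE : ExE EE) (hSD : SelfDual Q P)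
    (hdom : ∀ e, IsBlk P e → 2 ≤ e.rank → e.rank ∉ EE ∧ ∃ σ : ℂ ≃+* ℂ, NI.Indec w (fun p => (e.map σ * P p).rank) ∧
      (∃ p, 2 ≤ (e.map σ * P p).rank) ∧ ((∀ d : ℕ, (∀ p, d ∣ (e.map σ * P p).rank) → d = 1) ∨
        ∀ A : Matrix n n ℚ, (∀ p, toC A * P p = P p * toC A) → ∃ c : ℚ, A = c • (1 : Matrix n n ℚ)))
    {e : Matrix n n ℂ} (he : IsBlk P e) (hr2 : 2 ≤ e.rank) : TyBN Q S P e := by
  obtain ⟨hr, σ, hI, h2, hg | hEnd⟩ := hdom e he hr2
  · exact H.tyBN_crW hSD he hr2 hg (hE.crW hr hI h2)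
  · obtain rfl := blk_one14 hEnd he
    have e1 : (1 : Matrix n n ℂ).map σ = 1 := Matrix.map_one _ (map_zero _) (map_one _)
    rw [Matrix.rank_one] at hr2 hr
    simp only [e1, one_mul] at hI h2
    have h9 : 9 ≤ Fintype.card n := by
      by_contra h3
      exact hr (hE.small _ (by omega))
    have h0 : ∀ p, (P p).rank ≠ Fintype.card n := by
      intro p hp
      exact rank_neE H hEnd hr2 p hp
    have hcore : CoreW n w (fun p => (P p).rank) := hE.core.coreW hr hr2 h2 fun p _ => h0 p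
    have hnum : ∀ d k : ℕ, 2 ≤ d → 2 ≤ k → Fintype.card n = d ^ k → (∀ p, d ^ (k - 1) ∣ (P p).rank) → False :=
      fun d k _ hk hc _ => hr (by rw [hc]; exact hE.pow d k hk)
    exact H.tyBN_one hEnd (fun X hX => kills_coreW H hEnd hI hcore hnum hX) h9 he

end MH
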