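import Pool.Agent.Helper81.PW.Core
import Pool.Agent.Helper81.PW.Main
import Pool.Agent.Helper14.PW.MainE
import Pool.Agent.Helper14.PW.Zero

/-!
Project PW (MP_b8862a_ag): the exceptional set.
-/

open Module

attribute [local instance 100] LieRing.ofAssociativeRing

namespace MH

/-- The exceptional dimensions. -/
def ExDim : Set ℕ := PW.Ex ∪ ({n | n < 9} ∪ {n | ∃ d k : ℕ, 2 ≤ k ∧ n = d ^ k})

theorem exE_dim : ExE ExDim where
  core := by
    intro n _ hn ω hω hnd L hL hirr hsk
    haveI : LieAlgebra.IsSimple ℂ L := hL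
    refine PW.core hω hnd hirr hsk ?_
    rw [Module.finrank_fintype_fun_eq_card]
    exact fun h => hn (Or.inl h)
  small := fun n hn => Or.inr (Or.inl hn)
  pow := fun d k hk => Or.inr (Or.inr ⟨d, k, hk, rfl⟩)

theorem zero_dim : Filter.Tendsto (fun X : ℕ => (Nat.card {n : Fin X // (n : ℕ) ∈ ExDim} : ℝ) / X) Filter.atTop (nhds 0) :=
  (PW.ex_zero.union14 ((PW.Zero.bdd14 9).union14 PW.Zero.pow14)).tendsto14

theorem prime_dim {n q : ℕ} (hn : 0 < n) (hq : q.Prime) (hd : q ∣ n) (h25 : 25 * n ≤ q ^ 2) : n ∉ ExDim := by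
  have hqn : q ≤ n := Nat.le_of_dvd hn hd
  have h1 : 25 ≤ q := by
    have h3 : 25 * q ≤ q * q := by
      calc 25 * q ≤ 25 * n := Nat.mul_le_mul_left _ hqn
        _ ≤ q ^ 2 := h25
        _ = q * q := sq q
    exact Nat.le_of_mul_le_mul_right h3 hq.pos
  rintro (h | h | ⟨d, k, hk, rfl⟩)
  · exact PW.ex_prime hq hd h25 h
  · have : n < 9 := h
    omega
  · have hd2 : 2 ≤ d := by
      by_contra h2
      have h3 : d = 0 ∨ d = 1 := by omega
      rcases h3 with rfl | rfl
      · rw [zero_pow (by omega)] at hn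
        omega
      · rw [one_pow] at hqn
        omega
    exact num_prime98 hq hd (by omega) hk rfl hd2

end MH
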